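import Pool.Agent.Y757.HW.Stm1
import Pool.Agent.Y757.LL.Zeta
import Pool.Agent.Y757.LS.G
import Pool.Agent.Y693.R4.Hardy

set_option autoImplicit false

/-! The Blaschke product of the zeros for the half-plane `Re s > -1/4` (helper484, adapted from
`Pool.Agent.Y757.HW.bla`) -/

namespace Pool.Agent.Y484.HW

open MeasureTheory Set Filter Topology Complex Pool.Agent.Y757.HW Pool.Agent.Y757.LS
open scoped ComplexConjugate

noncomputable section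

lemma q_eq (ρ : ℂ) (t : ℝ) : (‖((3:ℝ) : ℂ) + conj (ρ - (-1 / 4 + t * I))‖ /
    ‖((3:ℝ) : ℂ) - (ρ - (-1 / 4 + t * I))‖) ^ 2 = q ((ρ.re + 1 / 4) / 3) ((t - ρ.im) / 3) := by
  have hre : (-1 / 4 + t * I : ℂ).re = -1 / 4 := by simp
  have him : (-1 / 4 + t * I : ℂ).im = t := by simp
  have e1 : ‖((3:ℝ) : ℂ) + conj (ρ - (-1 / 4 + t * I))‖ ^ 2 =
      9 * ((1 + (ρ.re + 1 / 4) / 3) ^ 2 + ((t - ρ.im) / 3) ^ 2) := by
    rw [← Complex.normSq_eq_norm_sq, Complex.normSq_apply, Complex.add_re, Complex.add_im,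
      Complex.conj_re, Complex.conj_im, Complex.sub_re, Complex.sub_im, hre, him,
      Complex.ofReal_re, Complex.ofReal_im]
    ring
  have e2 : ‖((3:ℝ) : ℂ) - (ρ - (-1 / 4 + t * I))‖ ^ 2 =
      9 * ((1 - (ρ.re + 1 / 4) / 3) ^ 2 + ((t - ρ.im) / 3) ^ 2) := by
    rw [← Complex.normSq_eq_norm_sq, Complex.normSq_apply, Complex.sub_re, Complex.sub_im,
      Complex.sub_re, Complex.sub_im, hre, him, Complex.ofReal_re, Complex.ofReal_im]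
    ring
  rw [div_pow, e1, e2]
  unfold q
  rw [mul_div_mul_left _ _ (by norm_num : (9:ℝ) ≠ 0)]

lemma one_le_q {x v : ℝ} (hx : 0 ≤ x) (hx1 : x < 1) : 1 ≤ q x v := by
  unfold q
  rw [one_le_div (by nlinarith [sq_nonneg v, sq_nonneg (1 - x), mul_pos (sub_pos.2 hx1) (sub_pos.2 hx1)])]
  nlinarith

lemma z1_bound : ∃ C : ℝ, 1 ≤ C ∧ ∀ w : ℂ, -1 ≤ w.re → ‖riemannZeta₁ w‖ ≤ C * (‖w‖ + 1) ^ 5 := by
  obtain ⟨C, hC, h⟩ := GG_growth
  refine ⟨3 * C, by linarith, fun w hw => ?_⟩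
  have h3 := add_three_ne (s := w) (by linarith)
  have h4 : riemannZeta₁ w = GG w * (w + 3) := by
    unfold GG
    rw [div_mul_cancel₀ _ h3]
  have h5 : ‖w + 3‖ ≤ 3 * (‖w‖ + 1) := by
    refine (norm_add_le _ _).trans ?_
    have : ‖(3:ℂ)‖ = 3 := by simp
    rw [this]
    nlinarith [norm_nonneg w]
  rw [h4, norm_mul]
  calc ‖GG w‖ * ‖w + 3‖ ≤ C * (‖w‖ + 1) ^ 4 * (3 * (‖w‖ + 1)) := by
        gcongr
        exact h w hw
    _ = 3 * C * (‖w‖ + 1) ^ 5 := by ring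

/-- the size on the line `Re s = -1/4` -/
lemma line_bound : ∃ C : ℝ, 1 ≤ C ∧ ∀ u : ℝ,
    ‖riemannZeta₁ (-1 / 4 + u * I)‖ ≤ C * (1 + |u|) ^ (7 / 4 : ℝ) := by
  obtain ⟨K, hK, hR⟩ := zeta_refl
  obtain ⟨A, hA, hzb⟩ := zeta_bounds (a := 5 / 4) (by norm_num)
  obtain ⟨C1, hC1⟩ : ∃ C1 : ℝ, ∀ u ∈ Icc (-1:ℝ) 1, ‖riemannZeta₁ (-1 / 4 + u * I)‖ ≤ C1 := by
    refine isCompact_Icc.exists_bound_of_continuousOn
      (f := fun u : ℝ => riemannZeta₁ (-1 / 4 + u * I)) ?_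
    exact (differentiable_riemannZeta₁.continuous.comp (by fun_prop)).continuousOn
  have hM1 : C1 ≤ max (max C1 1) (2 * Real.exp K * A) := (le_max_left _ _).trans (le_max_left _ _)
  have hM2 : 1 ≤ max (max C1 1) (2 * Real.exp K * A) := (le_max_right _ _).trans (le_max_left _ _)
  have hM3 : 2 * Real.exp K * A ≤ max (max C1 1) (2 * Real.exp K * A) := le_max_right _ _
  set M : ℝ := max (max C1 1) (2 * Real.exp K * A) with hM
  refine ⟨M, hM2, fun u => ?_⟩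
  have hu := abs_nonneg u
  have h1 : 1 ≤ (1 + |u|) ^ (7 / 4 : ℝ) := Real.one_le_rpow (by linarith) (by norm_num)
  rcases le_or_gt 1 |u| with h | h
  · have h2 := (hR (3 / 4) u (by norm_num) (by norm_num) h).2
    have e1 : (1 / 2 - ((3 / 4 : ℝ) : ℂ) + u * I) = -1 / 4 + u * I := by push_cast; ring
    have e2 : (1 / 2 + ((3 / 4 : ℝ) : ℂ) + u * I) = 5 / 4 + u * I := by push_cast; ring
    rw [e1, e2] at h2
    have h3 := (hzb (5 / 4 + u * I) (by simp)).1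
    have hne : (-1 / 4 + u * I : ℂ) ≠ 1 := by
      intro h
      have := congrArg Complex.re h
      simp at this
      norm_num at this
    rw [Pool.Agent.H437R2.z1_of_ne hne, norm_mul]
    have h4 : ‖(-1 / 4 + u * I : ℂ) - 1‖ ≤ 2 * (1 + |u|) := by
      have h5 : (-1 / 4 + u * I : ℂ) - 1 = ((-5 / 4 : ℝ) : ℂ) + u * I := by push_cast; ring
      rw [h5]
      refine (norm_add_le _ _).trans ?_
      rw [norm_mul, Complex.norm_I, Complex.norm_real, Complex.norm_real, Real.norm_eq_abs,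
        Real.norm_eq_abs, mul_one, abs_of_neg (by norm_num)]
      linarith
    have h5 : |u| ^ (3 / 4 : ℝ) ≤ (1 + |u|) ^ (3 / 4 : ℝ) :=
      Real.rpow_le_rpow hu (by linarith) (by norm_num)
    have h6 : (1 + |u|) * (1 + |u|) ^ (3 / 4 : ℝ) = (1 + |u|) ^ (7 / 4 : ℝ) := by
      have h7 := Real.rpow_add (x := 1 + |u|) (by linarith) 1 (3 / 4)
      rw [Real.rpow_one] at h7
      rw [← h7]
      norm_num
    calc ‖(-1 / 4 + u * I : ℂ) - 1‖ * ‖riemannZeta (-1 / 4 + u * I)‖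
        ≤ (2 * (1 + |u|)) * (Real.exp K * (1 + |u|) ^ (3 / 4 : ℝ) * A) := by
          refine mul_le_mul h4 (h2.trans ?_) (norm_nonneg _) (by positivity)
          gcongr
      _ = 2 * Real.exp K * A * ((1 + |u|) * (1 + |u|) ^ (3 / 4 : ℝ)) := by ring
      _ = 2 * Real.exp K * A * (1 + |u|) ^ (7 / 4 : ℝ) := by rw [h6]
      _ ≤ M * (1 + |u|) ^ (7 / 4 : ℝ) := by gcongr
  · have h2 := hC1 u (abs_le.1 h.le)
    calc ‖riemannZeta₁ (-1 / 4 + u * I)‖ ≤ C1 := h2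
      _ ≤ M := hM1
      _ = M * 1 := (mul_one _).symm
      _ ≤ M * (1 + |u|) ^ (7 / 4 : ℝ) := by gcongr

lemma pow72 {x : ℝ} (hx : 0 ≤ x) : (x ^ (7 / 4 : ℝ)) ^ 2 = x ^ (7 / 2 : ℝ) := by
  rw [← Real.rpow_natCast, ← Real.rpow_mul hx]
  norm_num

/-- the square on the line, in terms of `t` and `y` -/
lemma sq_bound : ∃ C : ℝ, 1 ≤ C ∧ ∀ t y : ℝ, 1 ≤ t →
    ‖riemannZeta₁ (-1 / 4 + t * I + y * I)‖ ^ 2 ≤ C * t ^ (7 / 2 : ℝ) * (1 + y ^ 2) ^ 2 := by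
  obtain ⟨C, hC, h⟩ := line_bound
  have h27 : (1:ℝ) ≤ 2 ^ (7 / 2 : ℝ) := Real.one_le_rpow (by norm_num) (by norm_num)
  refine ⟨C ^ 2 * 2 ^ (7 / 2 : ℝ) * 4, ?_, fun t y ht => ?_⟩
  · have h1 : 1 ≤ C ^ 2 := one_le_pow₀ hC
    nlinarith [mul_le_mul h1 h27 (by norm_num) (by linarith)]
  have ht0 : 0 < t := by linarith
  have hy := abs_nonneg y
  have e1 : (-1 / 4 + t * I + y * I : ℂ) = -1 / 4 + ((t + y : ℝ) : ℂ) * I := by push_cast; ring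
  rw [e1]
  have h1 := h (t + y)
  have h2 : 1 + |t + y| ≤ 2 * t * (1 + |y|) := by
    have h3 := abs_add_le t y
    rw [abs_of_pos ht0] at h3
    nlinarith
  have h3 : (1 + |t + y|) ^ (7 / 2 : ℝ) ≤ 2 ^ (7 / 2 : ℝ) * t ^ (7 / 2 : ℝ) * (1 + |y|) ^ 4 := by
    calc (1 + |t + y|) ^ (7 / 2 : ℝ) ≤ (2 * t * (1 + |y|)) ^ (7 / 2 : ℝ) :=
          Real.rpow_le_rpow (by positivity) h2 (by norm_num)
      _ = 2 ^ (7 / 2 : ℝ) * t ^ (7 / 2 : ℝ) * (1 + |y|) ^ (7 / 2 : ℝ) := by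
          rw [Real.mul_rpow (by positivity) (by positivity), Real.mul_rpow (by norm_num) ht0.le]
      _ ≤ 2 ^ (7 / 2 : ℝ) * t ^ (7 / 2 : ℝ) * (1 + |y|) ^ (4 : ℝ) := by
          refine mul_le_mul_of_nonneg_left ?_ (by positivity)
          exact Real.rpow_le_rpow_of_exponent_le (by linarith) (by norm_num)
      _ = _ := by
          have h4 : (1 + |y|) ^ (4 : ℝ) = (1 + |y|) ^ 4 := by
            rw [← Real.rpow_natCast]
            norm_num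
          rw [h4]
  have h4 : (1 + |y|) ^ 4 ≤ 4 * (1 + y ^ 2) ^ 2 := by
    have h5 : (1 + |y|) ^ 2 ≤ 2 * (1 + y ^ 2) := by nlinarith [sq_nonneg (1 - |y|), sq_abs y]
    calc (1 + |y|) ^ 4 = ((1 + |y|) ^ 2) ^ 2 := by ring
      _ ≤ (2 * (1 + y ^ 2)) ^ 2 := by gcongr
      _ = _ := by ring
  calc ‖riemannZeta₁ (-1 / 4 + ((t + y : ℝ) : ℂ) * I)‖ ^ 2
      ≤ (C * (1 + |t + y|) ^ (7 / 4 : ℝ)) ^ 2 := by gcongr
    _ = C ^ 2 * (1 + |t + y|) ^ (7 / 2 : ℝ) := by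
        rw [mul_pow, pow72 (by positivity)]
    _ ≤ C ^ 2 * (2 ^ (7 / 2 : ℝ) * t ^ (7 / 2 : ℝ) * (4 * (1 + y ^ 2) ^ 2)) := by
        refine mul_le_mul_of_nonneg_left (h3.trans ?_) (by positivity)
        exact mul_le_mul_of_nonneg_left h4 (by positivity)
    _ = _ := by ring

theorem t_bl2 : S_bl2 := by
  obtain ⟨A, hA, hzb⟩ := zeta_bounds (a := 3 / 2) (by norm_num)
  obtain ⟨C1, hC1, hz1⟩ := z1_bound
  obtain ⟨C2, hC2, hsq⟩ := sq_bound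
  have hA0 : 0 < A := by linarith
  refine ⟨A ^ 2 * 4 ^ 6 * (C2 * (3 * 9 ^ 6)), ?_, fun t ht S hS => ?_⟩
  · have h1 : 1 ≤ A ^ 2 := one_le_pow₀ hA
    have h2 : 1 ≤ A ^ 2 * C2 := one_le_mul_of_one_le_of_one_le h1 hC2
    nlinarith
  have ht0 : 0 < t := by linarith
  set w0 : ℂ := -1 / 4 + t * I with hw0
  have hw0re : w0.re = -1 / 4 := by simp [hw0]
  have hw0im : w0.im = t := by simp [hw0]
  have hF : Differentiable ℂ riemannZeta₁ := differentiable_riemannZeta₁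
  set G : ℂ → ℂ := fun z => riemannZeta₁ (w0 + z) with hG
  have hGd : Differentiable ℂ G := hF.comp (by fun_prop)
  -- value at the centre
  set s : ℂ := w0 + 3 with hs
  have hsre : s.re = 11 / 4 := by
    rw [hs, add_re, hw0re]
    norm_num
  have hs1 : s ≠ 1 := by
    intro h
    have := congrArg Complex.re h
    rw [hsre, one_re] at this
    norm_num at this
  have hsF : t / A ≤ ‖riemannZeta₁ s‖ := by
    rw [Pool.Agent.H437R2.z1_of_ne hs1, norm_mul]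
    have h1 := (hzb s (by rw [hsre]; norm_num)).2
    have h2 : t ≤ ‖s - 1‖ := by
      have h3 := Complex.abs_im_le_norm (s - 1)
      have h4 : (s - 1).im = t := by
        rw [sub_im, one_im, sub_zero, hs, add_im, hw0im]
        simp
      rw [h4, abs_of_pos ht0] at h3
      exact h3
    calc t / A = t * (1 / A) := by ring
      _ ≤ ‖s - 1‖ * ‖riemannZeta s‖ := by gcongr
  have hG1 : (t / A) ^ 2 ≤ ‖G ((3:ℝ):ℂ)‖ ^ 2 := by
    have h1 : G ((3:ℝ):ℂ) = riemannZeta₁ s := by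
      rw [hG, hs]
      push_cast
      rfl
    rw [h1]
    gcongr
  have hGA : G ((3:ℝ):ℂ) ≠ 0 := by
    intro h0
    have h2 : 0 < (t / A) ^ 2 := by positivity
    have h3 := h2.trans_le hG1
    rw [h0, norm_zero, zero_pow two_ne_zero] at h3
    exact lt_irrefl _ h3
  -- growth
  have hgr : ∀ z : ℂ, 0 ≤ z.re → ‖G z‖ ≤ (C1 * (1 + ‖w0‖) ^ 5) * (1 + ‖z‖) ^ 5 := by
    intro z hz
    have h1 : ‖riemannZeta₁ (w0 + z)‖ ≤ C1 * ((1 + ‖w0‖) * (1 + ‖z‖)) ^ 5 := by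
      refine (hz1 (w0 + z) (by rw [add_re, hw0re]; linarith)).trans ?_
      have h2 : ‖w0 + z‖ + 1 ≤ (1 + ‖w0‖) * (1 + ‖z‖) := by
        have := norm_add_le w0 z
        nlinarith [norm_nonneg w0, norm_nonneg z, mul_nonneg (norm_nonneg w0) (norm_nonneg z)]
      gcongr
    calc ‖riemannZeta₁ (w0 + z)‖ ≤ C1 * ((1 + ‖w0‖) * (1 + ‖z‖)) ^ 5 := h1
      _ = _ := by rw [mul_pow]; ring
  classical
  set S' : Finset ℂ := S.image (fun ρ => ρ - w0) with hS'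
  have key := Pool.Agent.Y693.R4.blaschke hGd (A := 3) (p := 5) (m := 6) (by norm_num) hgr
    (by norm_num) S' hGA
  -- the orders
  have hord : ∀ ρ ∈ S, analyticOrderNatAt G (ρ - w0) = analyticOrderNatAt riemannZeta ρ := by
    intro ρ hρ
    have hρ1 : ρ ≠ 1 := by
      rintro rfl
      have := (hS 1 hρ).2.2
      rw [one_re] at this
      linarith
    have h1 : analyticOrderAt (riemannZeta₁ ∘ fun z => w0 + z) (ρ - w0) =
        analyticOrderAt riemannZeta₁ (w0 + (ρ - w0)) := by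
      refine analyticOrderAt_comp_of_deriv_ne_zero (by fun_prop) ?_
      have : deriv (fun z : ℂ => w0 + z) (ρ - w0) = 1 := by
        rw [deriv_const_add, deriv_id'']
      rw [this]
      exact one_ne_zero
    have h2 : analyticOrderNatAt G (ρ - w0) = analyticOrderNatAt riemannZeta₁ ρ := by
      unfold analyticOrderNatAt
      have h3 : G = (riemannZeta₁ ∘ fun z => w0 + z) := rfl
      rw [h3, h1]
      congr 2
      ring
    rw [h2, Pool.Agent.Y757.LL.order_eq hρ1]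
  have hprod : ∏ ρ ∈ S', (‖((3:ℝ) : ℂ) + conj ρ‖ / ‖((3:ℝ) : ℂ) - ρ‖) ^ (2 * analyticOrderNatAt G ρ) =
      ∏ ρ ∈ S, q ((ρ.re + 1 / 4) / 3) ((t - ρ.im) / 3) ^ analyticOrderNatAt riemannZeta ρ := by
    rw [hS', Finset.prod_image (fun x _ y _ hxy => sub_left_injective hxy)]
    refine Finset.prod_congr rfl fun ρ hρ => ?_
    rw [pow_mul, hw0, q_eq, ← hw0, hord ρ hρ]
  rw [hprod] at key
  set P : ℝ := ∏ ρ ∈ S, q ((ρ.re + 1 / 4) / 3) ((t - ρ.im) / 3) ^ analyticOrderNatAt riemannZeta ρ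
    with hP
  have hP0 : 0 ≤ P := Finset.prod_nonneg fun ρ hρ =>
    pow_nonneg (zero_le_one.trans (one_le_q (by linarith [(hS ρ hρ).2.1]) (by linarith [(hS ρ hρ).2.2]))) _
  -- the integrand
  have hint : ∀ y : ℝ, ‖G (y * I)‖ ^ 2 * (((3:ℝ) ^ 2 / ((3:ℝ) ^ 2 + y ^ 2)) ^ 6 * (3 / ((3:ℝ) ^ 2 + y ^ 2))) ≤
      (C2 * t ^ (7 / 2 : ℝ) * (3 * 9 ^ 6)) * (1 + y ^ 2)⁻¹ := by
    intro y
    have h0 : (0:ℝ) < 1 + y ^ 2 := by positivity
    have h01 : (1:ℝ) ≤ 1 + y ^ 2 := by nlinarith [sq_nonneg y]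
    have h1 := hsq t y ht
    have h2 : (3:ℝ) ^ 2 / ((3:ℝ) ^ 2 + y ^ 2) ≤ 9 / (1 + y ^ 2) := by
      rw [div_le_div_iff₀ (by positivity) h0]
      nlinarith [sq_nonneg y]
    have h3 : 3 / ((3:ℝ) ^ 2 + y ^ 2) ≤ 3 / (1 + y ^ 2) := by
      rw [div_le_div_iff₀ (by positivity) h0]
      nlinarith [sq_nonneg y]
    have h4 : ((3:ℝ) ^ 2 / ((3:ℝ) ^ 2 + y ^ 2)) ^ 6 * (3 / ((3:ℝ) ^ 2 + y ^ 2)) ≤
        (9 / (1 + y ^ 2)) ^ 6 * (3 / (1 + y ^ 2)) := by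
      gcongr
    calc ‖G (y * I)‖ ^ 2 * (((3:ℝ) ^ 2 / ((3:ℝ) ^ 2 + y ^ 2)) ^ 6 * (3 / ((3:ℝ) ^ 2 + y ^ 2)))
        ≤ (C2 * t ^ (7 / 2 : ℝ) * (1 + y ^ 2) ^ 2) * ((9 / (1 + y ^ 2)) ^ 6 * (3 / (1 + y ^ 2))) := by
          refine mul_le_mul h1 h4 (by positivity) (by positivity)
      _ = (C2 * t ^ (7 / 2 : ℝ) * (3 * 9 ^ 6)) * ((1 + y ^ 2) ^ 5)⁻¹ := by
          field_simp
      _ ≤ (C2 * t ^ (7 / 2 : ℝ) * (3 * 9 ^ 6)) * (1 + y ^ 2)⁻¹ := by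
          refine mul_le_mul_of_nonneg_left ?_ (by positivity)
          refine inv_anti₀ h0 ?_
          calc 1 + y ^ 2 = (1 + y ^ 2) ^ 1 := (pow_one _).symm
            _ ≤ (1 + y ^ 2) ^ 5 := pow_le_pow_right₀ h01 (by norm_num)
  have hI : ∫ y : ℝ, ‖G (y * I)‖ ^ 2 * (((3:ℝ) ^ 2 / ((3:ℝ) ^ 2 + y ^ 2)) ^ 6 * (3 / ((3:ℝ) ^ 2 + y ^ 2))) ≤
      (C2 * t ^ (7 / 2 : ℝ) * (3 * 9 ^ 6)) * Real.pi := by
    have h1 : ∫ y : ℝ, (C2 * t ^ (7 / 2 : ℝ) * (3 * 9 ^ 6)) * (1 + y ^ 2)⁻¹ =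
        (C2 * t ^ (7 / 2 : ℝ) * (3 * 9 ^ 6)) * Real.pi := by
      rw [integral_const_mul, integral_univ_inv_one_add_sq]
    rw [← h1]
    refine integral_mono_of_nonneg (Eventually.of_forall fun y => by positivity)
      (integrable_inv_one_add_sq.const_mul _) (Eventually.of_forall hint)
  have h2 : (t / A) ^ 2 * (1 / 4) ^ 6 * P ≤ C2 * t ^ (7 / 2 : ℝ) * (3 * 9 ^ 6) := by
    calc (t / A) ^ 2 * (1 / 4) ^ 6 * P ≤ ‖G ((3:ℝ):ℂ)‖ ^ 2 * (1 / 4) ^ 6 * P := by gcongr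
      _ ≤ _ := key
      _ ≤ (1 / Real.pi) * ((C2 * t ^ (7 / 2 : ℝ) * (3 * 9 ^ 6)) * Real.pi) :=
          mul_le_mul_of_nonneg_left hI (by positivity)
      _ = _ := by
          have := Real.pi_ne_zero
          field_simp
  have h3 : t ^ (7 / 2 : ℝ) = t ^ (3 / 2 : ℝ) * t ^ 2 := by
    rw [← Real.rpow_natCast, ← Real.rpow_add ht0]
    norm_num
  rw [h3] at h2
  have h4 : t ^ 2 * P ≤ t ^ 2 * (A ^ 2 * 4 ^ 6 * (C2 * (3 * 9 ^ 6)) * t ^ (3 / 2 : ℝ)) := by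
    have h5 : t ^ 2 * P = (A ^ 2 * 4 ^ 6) * ((t / A) ^ 2 * (1 / 4) ^ 6 * P) := by
      field_simp
    rw [h5]
    calc (A ^ 2 * 4 ^ 6) * ((t / A) ^ 2 * (1 / 4) ^ 6 * P)
        ≤ (A ^ 2 * 4 ^ 6) * (C2 * (t ^ (3 / 2 : ℝ) * t ^ 2) * (3 * 9 ^ 6)) := by gcongr
      _ = _ := by ring
  exact le_of_mul_le_mul_left h4 (by positivity)

end

end Pool.Agent.Y484.HW
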